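import Mathlib

/-!
# Infinite time Turing machines: definitions
-/

set_option autoImplicit false

open Set Ordinal

namespace Pool.Agent.T2h82.IT

/-- A Turing program with the states `0, …, N - 1` for three tapes (input, work, output) with one head: it reads the
three cells under the head and gives the next state, the three symbols to be written and the direction (`true` is
right). -/
structure Prog where
  /-- the number of states -/
  N : ℕ
  /-- the initial state -/
  start : ℕ
  /-- the halting state -/
  halt : ℕ
  /-- the program -/
  δ : ℕ → (Fin 3 → Bool) → ℕ × (Fin 3 → Bool) × Bool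
  start_lt : start < N
  halt_lt : halt < N
  δ_lt : ∀ q s, q < N → (δ q s).1 < N

/-- A configuration: the state, the position of the head, the three tapes. -/
abbrev Conf : Type := ℕ × ℕ × (Fin 3 → ℕ → Bool)

/-- the initial configuration with the input `x` -/
def Prog.init (p : Prog) (x : ℕ → Bool) : Conf :=
  (p.start, 0, fun t n => if t = 0 then x n else false)

/-- One step. In the halting state nothing changes; at the position `0` a move to the left does not move the
head. -/
def Prog.step (p : Prog) (c : Conf) : Conf :=
  if c.1 = p.halt then c else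
    ((p.δ c.1 fun t => c.2.2 t c.2.1).1,
      if (p.δ c.1 fun t => c.2.2 t c.2.1).2.2 then c.2.1 + 1 else c.2.1 - 1,
      fun t n => if n = c.2.1 then (p.δ c.1 fun t => c.2.2 t c.2.1).2.1 t else c.2.2 t n)

/-- The limit of the natural numbers `f ν`, `ν < μ`: the least number which is taken cofinally often (this is the
`liminf`), `0` if there is none (if the `liminf` is infinite). -/
noncomputable def lim (μ : Ordinal.{0}) (f : (ν : Ordinal.{0}) → ν < μ → ℕ) : ℕ :=
  sInf {k | ∀ ν < μ, ∃ ξ, ∃ h : ξ < μ, ν ≤ ξ ∧ f ξ h = k}

/-- The limit of a cell: `1` (`true`) if the cell is `1` from some stage on. -/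
noncomputable def limB (μ : Ordinal.{0}) (f : (ν : Ordinal.{0}) → ν < μ → Bool) : Bool :=
  open Classical in
  decide (∃ ν < μ, ∀ ξ, ∀ h : ξ < μ, ν ≤ ξ → f ξ h = true)

/-- the configuration at a limit stage -/
noncomputable def limC (μ : Ordinal.{0}) (c : (ν : Ordinal.{0}) → ν < μ → Conf) : Conf :=
  (lim μ fun ν h => (c ν h).1, lim μ fun ν h => (c ν h).2.1,
    fun t n => limB μ fun ν h => (c ν h).2.2 t n)

/-- the configuration of the run of `p` on the input `x` at the stage `α` -/
noncomputable def Prog.conf (p : Prog) (x : ℕ → Bool) (α : Ordinal.{0}) : Conf :=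
  Ordinal.limitRecOn (motive := fun _ => Conf) α (p.init x) (fun _ c => p.step c) fun μ _ c => limC μ c

/-- the run of `p` on `x` is in the halting state at the stage `α` -/
def Prog.HaltsAt (p : Prog) (x : ℕ → Bool) (α : Ordinal.{0}) : Prop := (p.conf x α).1 = p.halt

/-- `p` semidecides `A`: it halts on `x` if and only if `x ∈ A`. -/
def Prog.Semidecides (p : Prog) (A : Set (ℕ → Bool)) : Prop :=
  ∀ x, x ∈ A ↔ ∃ α, p.HaltsAt x α

/-- `A` is thin: every closed subset is countable. -/
def Thin (A : Set (ℕ → Bool)) : Prop := ∀ C ⊆ A, IsClosed C → C.Countable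

/-- The halting times are unbounded in `ω₁` for every program which semidecides `A`: for every countable ordinal `α`
there is `x ∈ A` on which `p` does not halt up to the stage `α`. -/
def Unbounded (A : Set (ℕ → Bool)) : Prop :=
  ∀ p : Prog, p.Semidecides A → ∀ α < ω₁, ∃ x ∈ A, ∀ β ≤ α, ¬ p.HaltsAt x β

/-- `A` is semidecidable. -/
def Semidecidable (A : Set (ℕ → Bool)) : Prop := ∃ p : Prog, p.Semidecides A

end Pool.Agent.T2h82.IT
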