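import Pool.Agent.T2h82.IT.Meas

/-! A run which halts does so at a countable stage (Hamkins and Lewis). -/

set_option autoImplicit false

open Set Ordinal Order

namespace Pool.Agent.T2h82.IT

/-- the observables: the state, the position of the head, the cells -/
abbrev Ob : Type := Bool ⊕ (Fin 3 × ℕ)

/-- the value of an observable -/
def obs : Ob → Conf → ℕ
  | Sum.inl false, c => c.1
  | Sum.inl true, c => c.2.1
  | Sum.inr (t, n), c => (c.2.2 t n).toNat

theorem obs_ext {c c' : Conf} (h : ∀ o, obs o c = obs o c') : c = c' := by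
  refine Prod.ext (h (Sum.inl false)) (Prod.ext (h (Sum.inl true)) ?_)
  funext t n
  have := h (Sum.inr (t, n))
  simp only [obs] at this
  cases h1 : c.2.2 t n <;> cases h2 : c'.2.2 t n <;> rw [h1, h2] at this <;> simp_all

/-- the values taken cofinally often below `μ` -/
def Kf (f : Ordinal.{0} → ℕ) (μ : Ordinal.{0}) : Set ℕ :=
  {v | ∀ ν < μ, ∃ ξ, ξ < μ ∧ ν ≤ ξ ∧ f ξ = v}

theorem lim_eq (f : Ordinal.{0} → ℕ) (μ : Ordinal.{0}) : (lim μ fun ν _ => f ν) = sInf (Kf f μ) := by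
  unfold lim Kf
  congr 1
  ext v
  simp only [mem_ofPred_eq, exists_prop]

theorem limB_eq {f : Ordinal.{0} → Bool} {μ : Ordinal.{0}} :
    (limB μ fun ν _ => f ν).toNat = sInf (Kf (fun ν => (f ν).toNat) μ) := by
  by_cases hf : ∃ ν < μ, ∀ ξ, ∀ _ : ξ < μ, ν ≤ ξ → f ξ = true
  · have e1 : (limB μ fun ν _ => f ν) = true := by
      unfold limB
      simp only [decide_eq_true_eq]
      exact hf
    obtain ⟨ν, hν, hf⟩ := hf
    have e2 : Kf (fun ν => (f ν).toNat) μ = {1} := by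
      ext v
      constructor
      · intro hv
        obtain ⟨ξ, h1, h2, h3⟩ := hv ν hν
        simp only [hf ξ h1 h2, Bool.toNat_true] at h3
        exact h3.symm
      · rintro rfl
        intro ν' hν'
        refine ⟨max ν ν', max_lt hν hν', le_max_right _ _, ?_⟩
        simp only [hf _ (max_lt hν hν') (le_max_left _ _), Bool.toNat_true]
    rw [e1, e2, csInf_singleton]
    rfl
  · have e1 : (limB μ fun ν _ => f ν) = false := by
      unfold limB
      simp only [decide_eq_false_iff_not]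
      exact hf
    have e2 : (0 : ℕ) ∈ Kf (fun ν => (f ν).toNat) μ := by
      intro ν hν
      by_contra hc
      push Not at hc
      refine hf ⟨ν, hν, fun ξ h1 h2 => ?_⟩
      have h3 := hc ξ h1 h2
      cases hx : f ξ
      · rw [hx] at h3
        simp at h3
      · rfl
    rw [e1]
    have : sInf (Kf (fun ν => (f ν).toNat) μ) = 0 := Nat.sInf_eq_zero.2 (Or.inl e2)
    rw [this]
    rfl

theorem obs_limit (p : Prog) (x : ℕ → Bool) (o : Ob) {μ : Ordinal.{0}} (h : IsSuccLimit μ) :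
    obs o (p.conf x μ) = sInf (Kf (fun ν => obs o (p.conf x ν)) μ) := by
  rw [conf_limit p x h]
  unfold limC
  rcases o with (_ | _) | ⟨t, n⟩
  · exact lim_eq _ _
  · exact lim_eq _ _
  · exact limB_eq

/-- shift -/
theorem Kf_shift (f : Ordinal.{0} → ℕ) (α : Ordinal.{0}) {η : Ordinal.{0}} (hη : 0 < η) :
    Kf f (α + η) = Kf (fun ξ => f (α + ξ)) η := by
  ext v
  constructor
  · intro hv ν hν
    obtain ⟨ξ, h1, h2, h3⟩ := hv (α + ν) (by simpa using hν)
    have h4 : α ≤ ξ := (le_self_add).trans h2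
    refine ⟨ξ - α, ?_, ?_, ?_⟩
    · rw [Ordinal.sub_lt_of_le h4]
      exact h1
    · rw [Ordinal.le_sub_of_le h4]
      exact h2
    · show f (α + (ξ - α)) = v
      rw [Ordinal.add_sub_cancel_of_le h4]
      exact h3
  · intro hv ν hν
    rcases le_total α ν with h | h
    · obtain ⟨ξ, h1, h2, h3⟩ := hv (ν - α) (by
        rw [Ordinal.sub_lt_of_le h]
        exact hν)
      refine ⟨α + ξ, by simpa using h1, ?_, h3⟩
      rw [← Ordinal.add_sub_cancel_of_le h]
      simpa using h2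
    · obtain ⟨ξ, h1, h2, h3⟩ := hv 0 hη
      exact ⟨α + ξ, by simpa using h1, h.trans le_self_add, h3⟩

/-- the run after the stage `α` is determined by the configuration at the stage `α` -/
theorem determ (p : Prog) (x : ℕ → Bool) {α α' : Ordinal.{0}} (h : p.conf x α = p.conf x α') :
    ∀ η : Ordinal.{0}, p.conf x (α + η) = p.conf x (α' + η) := by
  intro η
  induction η using Ordinal.limitRecOn with
  | zero => simpa using h
  | add_one η ih => rw [← add_assoc, ← add_assoc, conf_succ, conf_succ, ih]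
  | limit η hη ih =>
    have hη0 : 0 < η := hη.bot_lt
    refine obs_ext fun o => ?_
    rw [obs_limit p x o (Ordinal.isSuccLimit_add α hη), obs_limit p x o (Ordinal.isSuccLimit_add α' hη),
      Kf_shift _ _ hη0, Kf_shift _ _ hη0]
    congr 1
    ext v
    constructor
    · intro hv ν hν
      obtain ⟨ξ, h1, h2, h3⟩ := hv ν hν
      refine ⟨ξ, h1, h2, ?_⟩
      simp only [ih ξ h1] at h3
      exact h3
    · intro hv ν hν
      obtain ⟨ξ, h1, h2, h3⟩ := hv ν hν
      refine ⟨ξ, h1, h2, ?_⟩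
      simp only [ih ξ h1]
      exact h3

theorem omega_one_limit : IsSuccLimit (ω₁ : Ordinal.{0}) := Cardinal.isSuccLimit_omega 1

/-- from some countable stage on only the cofinal values are taken -/
theorem stepA (f : Ob → Ordinal.{0} → ℕ) : ∃ ν < (ω₁ : Ordinal.{0}), ∀ ξ, ν ≤ ξ → ξ < ω₁ →
    ∀ o, f o ξ ∈ Kf (f o) ω₁ := by
  classical
  have h : ∀ q : Ob × ℕ, ∃ ν < (ω₁ : Ordinal.{0}), q.2 ∉ Kf (f q.1) ω₁ →
      ∀ ξ, ν ≤ ξ → ξ < ω₁ → f q.1 ξ ≠ q.2 := by
    intro q
    by_cases hq : q.2 ∈ Kf (f q.1) ω₁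
    · exact ⟨0, omega_one_limit.bot_lt, fun h => absurd hq h⟩
    · have h2 := hq
      unfold Kf at h2
      simp only [mem_ofPred_eq] at h2
      push Not at h2
      obtain ⟨ν, h3, h4⟩ := h2
      exact ⟨ν, h3, fun _ ξ h5 h6 => h4 ξ h6 h5⟩
  choose ν hν hν2 using h
  refine ⟨⨆ q, ν q, Ordinal.iSup_lt_omega_one hν, fun ξ h1 h2 o => ?_⟩
  by_contra hc
  exact hν2 (o, f o ξ) hc ξ ((Ordinal.le_iSup ν (o, f o ξ)).trans h1) h2 rfl

/-- `β` is a countable limit ordinal below which all cofinal values are taken cofinally often -/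
def Gd (f : Ob → Ordinal.{0} → ℕ) (β : Ordinal.{0}) : Prop :=
  β < ω₁ ∧ IsSuccLimit β ∧ ∀ o, Kf (f o) ω₁ ⊆ Kf (f o) β

theorem stepB (f : Ob → Ordinal.{0} → ℕ) {γ : Ordinal.{0}} (hγ : γ < ω₁) :
    ∃ β, γ < β ∧ Gd f β := by
  classical
  have h : ∀ (ν : Ordinal.{0}) (q : Ob × ℕ), ∃ ξ : Ordinal.{0}, ν < ω₁ → ξ < ω₁ ∧ ν ≤ ξ ∧
      (q.2 ∈ Kf (f q.1) ω₁ → f q.1 ξ = q.2) := by
    intro ν q
    by_cases hν : ν < ω₁
    · by_cases hq : q.2 ∈ Kf (f q.1) ω₁
      · obtain ⟨ξ, h1, h2, h3⟩ := hq ν hν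
        exact ⟨ξ, fun _ => ⟨h1, h2, fun _ => h3⟩⟩
      · exact ⟨ν, fun _ => ⟨hν, le_rfl, fun h => absurd h hq⟩⟩
    · exact ⟨0, fun h => absurd h hν⟩
  choose g hg using h
  set G : Ordinal.{0} → Ordinal.{0} := fun ν => (⨆ q, g ν q) + 1 with hG
  have hG1 : ∀ ν < (ω₁ : Ordinal.{0}), G ν < ω₁ := fun ν hν =>
    omega_one_limit.add_one_lt (Ordinal.iSup_lt_omega_one fun q => (hg ν q hν).1)
  have hG2 : ∀ ν < (ω₁ : Ordinal.{0}), ∀ q, g ν q < G ν := fun ν hν q =>
    Order.lt_add_one_iff.2 (Ordinal.le_iSup (g ν) q)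
  have hG3 : ∀ ν < (ω₁ : Ordinal.{0}), ν < G ν := fun ν hν =>
    ((hg ν (Sum.inl false, 0) hν).2.1).trans_lt (hG2 ν hν _)
  set s : ℕ → Ordinal.{0} := fun n => G^[n] (γ + 1) with hs
  have hs0 : ∀ n, s n < ω₁ := by
    intro n
    induction n with
    | zero => exact omega_one_limit.add_one_lt hγ
    | succ n ih =>
      simp only [hs, Function.iterate_succ_apply']
      exact hG1 _ ih
  have hs1 : ∀ n, s (n + 1) = G (s n) := fun n => by
    simp only [hs, Function.iterate_succ_apply']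
  have hlt : ∀ n, s n < ⨆ n, s n := fun n =>
    (hG3 _ (hs0 n)).trans_le (by
      rw [← hs1]
      exact Ordinal.le_iSup s (n + 1))
  refine ⟨⨆ n, s n, ?_, Ordinal.iSup_lt_omega_one hs0, ?_, ?_⟩
  · exact (Order.lt_add_one_iff.2 le_rfl).trans (hlt 0)
  · rw [Ordinal.isSuccLimit_iff]
    refine ⟨(bot_le.trans_lt (hlt 0)).ne', Order.isSuccPrelimit_iff_succ_lt.2 fun ν hν => ?_⟩
    obtain ⟨n, hn⟩ := Ordinal.lt_iSup_iff.1 hν
    exact (Order.succ_le_of_lt hn).trans_lt (hlt n)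
  · intro o v hv ν hν
    obtain ⟨n, hn⟩ := Ordinal.lt_iSup_iff.1 hν
    obtain ⟨-, h2, h3⟩ := hg (s n) (o, v) (hs0 n)
    refine ⟨g (s n) (o, v), ?_, hn.le.trans h2, h3 hv⟩
    refine (hG2 (s n) (hs0 n) (o, v)).trans_le ?_
    rw [← hs1]
    exact Ordinal.le_iSup s (n + 1)

/-- a run which halts does so at a countable stage -/
theorem halts_countable (p : Prog) (x : ℕ → Bool) (h : ∃ α, p.HaltsAt x α) :
    ∃ α < (ω₁ : Ordinal.{0}), p.HaltsAt x α := by
  set f : Ob → Ordinal.{0} → ℕ := fun o α => obs o (p.conf x α) with hf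
  obtain ⟨ν, hν, hA⟩ := stepA f
  obtain ⟨β, hβ1, hβ2, hβ3, hβ4⟩ := stepB f hν
  obtain ⟨β', hβ'1, hβ'2, hβ'3, hβ'4⟩ := stepB f hβ2
  obtain ⟨α, hα⟩ := h
  -- the value at a good ordinal
  have hval : ∀ ρ : Ordinal.{0}, IsSuccLimit ρ → (∀ o, Kf (f o) ρ = Kf (f o) ω₁) →
      ∀ o, f o ρ = sInf (Kf (f o) ω₁) := by
    intro ρ h1 h2 o
    rw [← h2 o]
    exact obs_limit p x o h1
  have hK : ∀ ρ : Ordinal.{0}, ν < ρ → ρ < ω₁ → (∀ o, Kf (f o) ω₁ ⊆ Kf (f o) ρ) →
      ∀ o, Kf (f o) ρ = Kf (f o) ω₁ := by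
    intro ρ h1 h2 h3 o
    refine Subset.antisymm (fun v hv => ?_) (h3 o)
    obtain ⟨ξ, h4, h5, h6⟩ := hv ν h1
    rw [← h6]
    exact hA ξ h5 (h4.trans h2) o
  have hcβ := hval β hβ3 (hK β hβ1 hβ2 hβ4)
  have hcβ' := hval β' hβ'3 (hK β' (hβ1.trans hβ'1) hβ'2 hβ'4)
  have hcc : p.conf x β' = p.conf x β := obs_ext fun o => (hcβ' o).trans (hcβ o).symm
  set δ : Ordinal.{0} := β' - β with hδ
  have hβδ : β + δ = β' := Ordinal.add_sub_cancel_of_le hβ'1.le
  have hδ0 : 0 < δ := by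
    refine bot_lt_iff_ne_bot.2 fun h0 => ?_
    rw [bot_eq_zero] at h0
    rw [h0, add_zero] at hβδ
    exact hβ'1.ne hβδ
  have hloop : ∀ ξ : Ordinal.{0}, p.conf x (β + δ * ξ) = p.conf x β := by
    intro ξ
    induction ξ using Ordinal.limitRecOn with
    | zero => simp
    | add_one ξ ih =>
      rw [mul_add, mul_one, ← add_assoc, determ p x ih δ, hβδ, hcc]
    | limit ξ hξ ih =>
      have hlim : IsSuccLimit (β + δ * ξ) :=
        Ordinal.isSuccLimit_add β (Ordinal.isSuccLimit_mul_right hδ0 hξ)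
      refine obs_ext fun o => ?_
      refine (hval _ hlim (fun o => ?_) o).trans (hcβ o).symm
      refine Subset.antisymm (fun v hv => ?_) fun v hv => ?_
      · obtain ⟨ρ, h1, h2, h3⟩ := hv β (by
          have : 0 < δ * ξ := mul_pos hδ0 hξ.bot_lt
          simpa using this)
        obtain ⟨τ, rfl⟩ := exists_add_of_le h2
        have h4 : τ < δ * ξ := by simpa using h1
        have h5 : τ / δ < ξ := (Ordinal.lt_mul_iff_div_lt hδ0.ne').1 h4
        have h6 : τ % δ < δ := Ordinal.mod_lt τ hδ0.ne'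
        have h7 : β + τ = (β + δ * (τ / δ)) + τ % δ := by
          rw [add_assoc, Ordinal.div_add_mod]
        rw [← h3]
        show obs o (p.conf x (β + τ)) ∈ _
        rw [h7, determ p x (ih _ h5) (τ % δ)]
        exact hA _ (hβ1.le.trans le_self_add) ((by
          rw [← hβδ]
          simpa using h6 : β + τ % δ < β').trans hβ'2) o
      · intro ρ hρ
        have h1 : ∃ ζ < ξ, ρ ≤ β + δ * ζ := by
          rcases le_total β ρ with h | h
          · obtain ⟨τ, rfl⟩ := exists_add_of_le h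
            have h4 : τ < δ * ξ := by simpa using hρ
            have h5 : τ / δ < ξ := (Ordinal.lt_mul_iff_div_lt hδ0.ne').1 h4
            refine ⟨τ / δ + 1, hξ.add_one_lt h5, ?_⟩
            have : τ ≤ δ * (τ / δ + 1) := by
              rw [mul_add, mul_one]
              exact (Ordinal.lt_mul_div_add τ hδ0.ne').le
            simpa using this
          · exact ⟨0, hξ.bot_lt, by simpa using h⟩
        obtain ⟨ζ, h2, h3⟩ := h1
        obtain ⟨ξ₀, h4, h5, h6⟩ := hβ'4 o hv β hβ'1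
        obtain ⟨η, rfl⟩ := exists_add_of_le h5
        have h7 : η < δ := by
          rw [← hβδ] at h4
          simpa using h4
        refine ⟨β + δ * ζ + η, ?_, h3.trans le_self_add, ?_⟩
        · have h8 : β + δ * ζ + η < β + δ * ζ + δ := by simpa using h7
          refine h8.trans_le ?_
          have h9 : δ * (ζ + 1) ≤ δ * ξ := mul_le_mul_right (Order.add_one_le_of_lt h2) δ
          rw [add_assoc]
          rw [mul_add, mul_one] at h9
          simpa using h9
        · show obs o (p.conf x (β + δ * ζ + η)) = v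
          rw [determ p x (ih ζ h2) η]
          exact h6
  rcases lt_or_ge α ω₁ with h1 | h1
  · exact ⟨α, h1, hα⟩
  · have h2 : β ≤ α := hβ2.le.trans h1
    obtain ⟨τ, rfl⟩ := exists_add_of_le h2
    have h6 : τ % δ < δ := Ordinal.mod_lt τ hδ0.ne'
    have h7 : β + τ = (β + δ * (τ / δ)) + τ % δ := by
      rw [add_assoc, Ordinal.div_add_mod]
    refine ⟨β + τ % δ, ?_, ?_⟩
    · refine lt_trans ?_ hβ'2
      rw [← hβδ]
      simpa using h6
    · unfold Prog.HaltsAt at hα ⊢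
      rw [h7, determ p x (hloop (τ / δ)) (τ % δ)] at hα
      exact hα

end Pool.Agent.T2h82.IT
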