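import Pool.Agent.T2h82.IT.Defs

/-! The configurations at countable stages are Borel functions of the input. -/

set_option autoImplicit false

open Set Ordinal

namespace Pool.Agent.T2h82.IT

theorem conf_zero (p : Prog) (x : ℕ → Bool) : p.conf x 0 = p.init x :=
  Ordinal.limitRecOn_zero ..

theorem conf_succ (p : Prog) (x : ℕ → Bool) (α : Ordinal.{0}) :
    p.conf x (α + 1) = p.step (p.conf x α) :=
  Ordinal.limitRecOn_add_one ..

theorem conf_limit (p : Prog) (x : ℕ → Bool) {μ : Ordinal.{0}} (h : Order.IsSuccLimit μ) :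
    p.conf x μ = limC μ fun ν _ => p.conf x ν :=
  Ordinal.limitRecOn_limit (h := h) ..

theorem countable_Iio {μ : Ordinal.{0}} (h : μ < ω₁) : (Iio μ).Countable := by
  rw [← Cardinal.le_aleph0_iff_set_countable, Cardinal.mk_Iio_ordinal]
  rw [← Cardinal.ord_aleph, Cardinal.lt_ord] at h
  have h2 : μ.card < Order.succ Cardinal.aleph0 := by
    rwa [Cardinal.succ_aleph0]
  have h3 : μ.card ≤ Cardinal.aleph0 := Order.lt_succ_iff.1 h2
  simpa using Cardinal.lift_le_aleph0.2 h3

theorem meas_step (p : Prog) : Measurable p.step := by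
  have h : ∀ (q h : ℕ), Measurable fun T : Fin 3 → ℕ → Bool => p.step (q, h, T) := by
    intro q h
    unfold Prog.step
    by_cases hq : q = p.halt
    · simp only [hq, if_true]
      fun_prop
    · simp only [hq, if_false]
      have hs : Measurable fun T : Fin 3 → ℕ → Bool => fun t : Fin 3 => T t h := by fun_prop
      have hr : Measurable fun T : Fin 3 → ℕ → Bool => p.δ q fun t => T t h :=
        (measurable_of_countable fun s : Fin 3 → Bool => p.δ q s).comp hs
      refine Measurable.prodMk hr.fst (Measurable.prodMk ?_ ?_)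
      · exact (measurable_of_countable fun b : Bool => if b then h + 1 else h - 1).comp hr.snd.snd
      · refine measurable_pi_lambda _ fun t => measurable_pi_lambda _ fun n => ?_
        split_ifs
        · exact (measurable_pi_apply t).comp hr.snd.fst
        · fun_prop
  have h2 : ∀ q : ℕ, Measurable fun c : ℕ × (Fin 3 → ℕ → Bool) => p.step (q, c) := fun q =>
    measurable_from_prod_countable_right fun h' => h q h'
  exact measurable_from_prod_countable_right fun q => h2 q

theorem meas_lim {X : Type} [MeasurableSpace X] {μ : Ordinal.{0}} (hμ : μ < ω₁)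
    (f : X → Ordinal.{0} → ℕ) (hf : ∀ ν < μ, Measurable fun x => f x ν) :
    Measurable fun x => lim μ fun ν _ => f x ν := by
  have hK : ∀ k : ℕ, MeasurableSet {x | ∀ ν < μ, ∃ ξ, ∃ _ : ξ < μ, ν ≤ ξ ∧ f x ξ = k} := by
    intro k
    have e : {x | ∀ ν < μ, ∃ ξ, ∃ _ : ξ < μ, ν ≤ ξ ∧ f x ξ = k} =
        ⋂ ν ∈ Iio μ, ⋃ ξ ∈ Iio μ ∩ Ici ν, {x | f x ξ = k} := by
      ext x
      simp only [mem_ofPred_eq, mem_iInter, mem_iUnion, mem_Iio, mem_inter_iff, mem_Ici,
        exists_prop]
      constructor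
      · intro h ν hν
        obtain ⟨ξ, h1, h2, h3⟩ := h ν hν
        exact ⟨ξ, ⟨h1, h2⟩, h3⟩
      · intro h ν hν
        obtain ⟨ξ, ⟨h1, h2⟩, h3⟩ := h ν hν
        exact ⟨ξ, h1, h2, h3⟩
    rw [e]
    refine MeasurableSet.biInter (countable_Iio hμ) fun ν _ =>
      MeasurableSet.biUnion ((countable_Iio hμ).mono inter_subset_left) fun ξ hξ => ?_
    exact hf ξ hξ.1 (measurableSet_singleton k)
  refine measurable_to_countable' fun j => ?_
  have e : (fun x => lim μ fun ν _ => f x ν) ⁻¹' {j} =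
      ({x | ∀ ν < μ, ∃ ξ, ∃ _ : ξ < μ, ν ≤ ξ ∧ f x ξ = j} ∩
        ⋂ i ∈ Iio j, {x | ∀ ν < μ, ∃ ξ, ∃ _ : ξ < μ, ν ≤ ξ ∧ f x ξ = i}ᶜ) ∪
      (⋂ i : ℕ, {x | j = 0 ∧ x ∈ {x | ∀ ν < μ, ∃ ξ, ∃ _ : ξ < μ, ν ≤ ξ ∧ f x ξ = i}ᶜ}) := by
    ext x
    set K : Set ℕ := {k | ∀ ν < μ, ∃ ξ, ∃ _ : ξ < μ, ν ≤ ξ ∧ f x ξ = k} with hKd
    have hx : x ∈ (fun x => lim μ fun ν _ => f x ν) ⁻¹' {j} ↔ sInf K = j := Iff.rfl
    have hx2 : x ∈ ({x | ∀ ν < μ, ∃ ξ, ∃ _ : ξ < μ, ν ≤ ξ ∧ f x ξ = j} ∩
        ⋂ i ∈ Iio j, {x | ∀ ν < μ, ∃ ξ, ∃ _ : ξ < μ, ν ≤ ξ ∧ f x ξ = i}ᶜ) ∪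
      (⋂ i : ℕ, {x | j = 0 ∧ x ∈ {x | ∀ ν < μ, ∃ ξ, ∃ _ : ξ < μ, ν ≤ ξ ∧ f x ξ = i}ᶜ}) ↔
      (j ∈ K ∧ ∀ i < j, i ∉ K) ∨ ∀ i : ℕ, j = 0 ∧ i ∉ K := by
      simp only [mem_union, mem_inter_iff, mem_iInter, mem_Iio]
      rfl
    rw [hx, hx2]
    constructor
    · intro h
      rcases K.eq_empty_or_nonempty with hE | hN
      · right
        intro i
        rw [hE, Nat.sInf_empty] at h
        exact ⟨h.symm, by rw [hE]; exact notMem_empty i⟩
      · left
        refine ⟨h ▸ Nat.sInf_mem hN, fun i hi => ?_⟩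
        rw [← h] at hi
        exact Nat.notMem_of_lt_sInf hi
    · rintro (⟨h1, h2⟩ | h)
      · refine le_antisymm (Nat.sInf_le h1) ?_
        by_contra h3
        push Not at h3
        exact h2 _ h3 (Nat.sInf_mem ⟨j, h1⟩)
      · have hE : K = ∅ := eq_empty_of_forall_notMem fun i => (h i).2
        rw [hE, Nat.sInf_empty]
        exact (h 0).1.symm
  rw [e]
  refine ((hK j).inter (MeasurableSet.biInter (Set.to_countable _) fun i _ => (hK i).compl)).union
    (MeasurableSet.iInter fun i => ?_)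
  by_cases hj : j = 0
  · simp only [hj, true_and]
    exact (hK i).compl
  · simp only [hj, false_and]
    exact MeasurableSet.empty

theorem meas_limB {X : Type} [MeasurableSpace X] {μ : Ordinal.{0}} (hμ : μ < ω₁)
    (f : X → Ordinal.{0} → Bool) (hf : ∀ ν < μ, Measurable fun x => f x ν) :
    Measurable fun x => limB μ fun ν _ => f x ν := by
  refine measurable_to_bool ?_
  have e : (fun x => limB μ fun ν _ => f x ν) ⁻¹' {true} =
      ⋃ ν ∈ Iio μ, ⋂ ξ ∈ Iio μ ∩ Ici ν, {x | f x ξ = true} := by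
    ext x
    simp only [limB, mem_preimage, mem_singleton_iff, decide_eq_true_eq, mem_iInter, mem_iUnion,
      mem_Iio, mem_inter_iff, mem_Ici, exists_prop, mem_ofPred_eq]
    constructor
    · rintro ⟨ν, h1, h2⟩
      exact ⟨ν, h1, fun ξ h3 => h2 ξ h3.1 h3.2⟩
    · rintro ⟨ν, h1, h2⟩
      exact ⟨ν, h1, fun ξ h3 h4 => h2 ξ ⟨h3, h4⟩⟩
  rw [e]
  refine MeasurableSet.biUnion (countable_Iio hμ) fun ν _ =>
    MeasurableSet.biInter ((countable_Iio hμ).mono inter_subset_left) fun ξ hξ => ?_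
  exact hf ξ hξ.1 (measurableSet_singleton true)

/-- the configuration at a countable stage is a Borel function of the input -/
theorem meas_conf (p : Prog) : ∀ α : Ordinal.{0}, α < ω₁ → Measurable fun x => p.conf x α := by
  intro α
  induction α using Ordinal.limitRecOn with
  | zero =>
    intro _
    simp only [conf_zero]
    unfold Prog.init
    refine Measurable.prodMk measurable_const (Measurable.prodMk measurable_const ?_)
    refine measurable_pi_lambda _ fun t => measurable_pi_lambda _ fun n => ?_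
    split_ifs
    · fun_prop
    · fun_prop
  | add_one α ih =>
    intro h
    simp only [conf_succ]
    exact (meas_step p).comp (ih ((lt_add_one α).trans h))
  | limit μ hμ ih =>
    intro h
    simp only [conf_limit p _ hμ]
    unfold limC
    have hi : ∀ ν < μ, Measurable fun x => p.conf x ν := fun ν hν => ih ν hν (hν.trans h)
    refine Measurable.prodMk ?_ (Measurable.prodMk ?_ ?_)
    · exact meas_lim h (fun x ν => (p.conf x ν).1) fun ν hν => (hi ν hν).fst
    · exact meas_lim h (fun x ν => (p.conf x ν).2.1) fun ν hν => (hi ν hν).snd.fst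
    · refine measurable_pi_lambda _ fun t => measurable_pi_lambda _ fun n => ?_
      exact meas_limB h (fun x ν => (p.conf x ν).2.2 t n) fun ν hν =>
        (measurable_pi_apply n).comp ((measurable_pi_apply t).comp (hi ν hν).snd.snd)

theorem meas_halts (p : Prog) {α : Ordinal.{0}} (h : α < ω₁) :
    MeasurableSet {x | ∃ β ≤ α, p.HaltsAt x β} := by
  have e : {x | ∃ β ≤ α, p.HaltsAt x β} = ⋃ β ∈ Iio (α + 1), {x | (p.conf x β).1 = p.halt} := by
    ext x
    simp only [mem_ofPred_eq, mem_iUnion, mem_Iio, exists_prop, Prog.HaltsAt, Order.lt_add_one_iff]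
  have h1 : α + 1 < ω₁ := (Cardinal.isSuccLimit_omega 1).add_one_lt h
  rw [e]
  refine MeasurableSet.biUnion (countable_Iio h1) fun β hβ => ?_
  exact (meas_conf p β ((mem_Iio.1 hβ).trans h1)).fst (measurableSet_singleton p.halt)

/-- Borel thin sets are countable -/
theorem thin_countable {A : Set (ℕ → Bool)} (hA : MeasurableSet A) (hT : Thin A) :
    A.Countable := by
  have hpol : PolishSpace (ℕ → Bool) := { }
  have hunc : ¬ Cardinal.mk (ℕ → Bool) ≤ Cardinal.aleph0 := by
    have e : Cardinal.mk (ℕ → Bool) = 2 ^ Cardinal.aleph0 := by simp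
    rw [e]
    exact (Cardinal.cantor Cardinal.aleph0).not_ge
  have key : ∀ f : (ℕ → Bool) → (ℕ → Bool), Continuous f → Function.Injective f →
      range f ⊆ A → False := by
    intro f hf hf3 hf1
    have h4 := hT (range f) hf1 (isCompact_range hf).isClosed
    have h5 : Countable (ℕ → Bool) := by
      have : Countable (range f) := h4.to_subtype
      exact (Equiv.ofInjective f hf3).countable_iff.2 this
    exact hunc (Cardinal.mk_le_aleph0_iff.2 h5)
  by_contra hc
  obtain ⟨t', h1, h2, h3, -⟩ := hA.isClopenable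
  obtain ⟨f, hf1, hf2, hf3⟩ :=
    @IsClosed.exists_nat_bool_injection_of_not_countable _ t' h2 A h3 hc
  exact key f (@continuous_le_rng _ _ f Pi.topologicalSpace t' Pi.topologicalSpace h1 hf2) hf3 hf1

end Pool.Agent.T2h82.IT
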